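import Pool.Agent.Run7.h872.WD.Defs

/-!
Piece VAL of project WD (helper872): the values of the character sums.
-/

set_option autoImplicit false

namespace Pool.Agent.Run7.h105.WD

open Finset Pool.Agent.Run7.h872.WD

section basics

variable {K : Type} [Field K] [Fintype K] [Algebra (ZMod 2) K]

theorem charTwo (K : Type) [Field K] [Algebra (ZMod 2) K] : CharP K 2 :=
  charP_of_injective_algebraMap (algebraMap (ZMod 2) K).injective 2

theorem psi_add (x y : K) : psi (x + y) = psi x * psi y := by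
  unfold psi
  rw [map_add]
  generalize Algebra.trace (ZMod 2) K x = u
  generalize Algebra.trace (ZMod 2) K y = v
  fin_cases u <;> fin_cases v <;> simp <;> decide

theorem psi_zero : psi (0 : K) = 1 := by
  unfold psi
  simp

theorem psi_cases (x : K) : psi x = 1 ∨ psi x = -1 := by
  unfold psi
  split_ifs
  · left; rfl
  · right; rfl

theorem psi_mul_self (x : K) : psi x * psi x = 1 := by
  rcases psi_cases x with h | h <;> rw [h] <;> norm_num

theorem psi_frob1 (x : K) : psi (x ^ 2) = psi x := by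
  unfold psi
  have h := Algebra.trace_eq_of_algEquiv (FiniteField.frobeniusAlgEquivOfAlgebraic (ZMod 2) K) x
  rw [FiniteField.coe_frobeniusAlgEquivOfAlgebraic, ZMod.card] at h
  rw [h]

theorem psi_frob (x : K) (k : ℕ) : psi (x ^ 2 ^ k) = psi x := by
  induction k with
  | zero => simp
  | succ k ih => rw [pow_succ 2 k, pow_mul, psi_frob1, ih]

theorem sum_psi {z : K} (hz : z ≠ 0) : ∑ x : K, psi (x * z) = 0 := by
  obtain ⟨w, hw⟩ := Algebra.trace_surjective (ZMod 2) K 1
  have h1 : psi w = -1 := by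
    unfold psi
    rw [hw, if_neg one_ne_zero]
  have h2 : ∑ x : K, psi (x * z) = ∑ x : K, psi ((x + w / z) * z) :=
    (Equiv.sum_comp (Equiv.addRight (w / z)) (fun x : K => psi (x * z))).symm
  have h3 : ∀ x : K, psi ((x + w / z) * z) = -psi (x * z) := by
    intro x
    rw [add_mul, div_mul_cancel₀ _ hz, psi_add, h1, mul_neg_one]
  simp_rw [h3, Finset.sum_neg_distrib] at h2
  linarith

end basics

section main

variable {K : Type} [Field K] [Fintype K] [Algebra (ZMod 2) K]

/-- the linearized polynomial of the radical -/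
def L (m i j : ℕ) (b c y : K) : K :=
  b * y ^ 2 ^ i + (b * y) ^ 2 ^ (m - i) + (c * y ^ 2 ^ j + (c * y) ^ 2 ^ (m - j))

theorem L_add (m i j : ℕ) (b c x y : K) : L m i j b c (x + y) = L m i j b c x + L m i j b c y := by
  haveI := charTwo K
  haveI : Fact (Nat.Prime 2) := ⟨Nat.prime_two⟩
  unfold L
  rw [mul_add, mul_add, add_pow_char_pow, add_pow_char_pow, add_pow_char_pow, add_pow_char_pow]
  ring

/-- one quadratic term -/
theorem term (m i : ℕ) (hK : Fintype.card K = 2 ^ m) (hi : i ≤ m) (b x y : K) :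
    psi (b * (x + y) ^ (1 + 2 ^ i)) =
      psi (b * x ^ (1 + 2 ^ i)) * psi (b * y ^ (1 + 2 ^ i)) *
        psi (x * (b * y ^ 2 ^ i + (b * y) ^ 2 ^ (m - i))) := by
  haveI := charTwo K
  haveI : Fact (Nat.Prime 2) := ⟨Nat.prime_two⟩
  have h1 : b * (x + y) ^ (1 + 2 ^ i) = b * x ^ (1 + 2 ^ i) + b * y ^ (1 + 2 ^ i) +
      (x * (b * y ^ 2 ^ i) + b * y * x ^ 2 ^ i) := by
    rw [pow_add, pow_add, pow_add, pow_one, pow_one, pow_one, add_pow_char_pow]
    ring
  have h2 : psi (b * y * x ^ 2 ^ i) = psi (x * (b * y) ^ 2 ^ (m - i)) := by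
    rw [← psi_frob (b * y * x ^ 2 ^ i) (m - i), mul_pow, ← pow_mul, ← pow_add,
      Nat.add_sub_cancel' hi, ← hK, FiniteField.pow_card, mul_comm]
  rw [h1, psi_add, psi_add, psi_add, h2, mul_add, psi_add]

theorem quad (m i j : ℕ) (hK : Fintype.card K = 2 ^ m) (hi : i ≤ m) (hj : j ≤ m) (a b c x y : K) :
    psi (a * (x + y) + b * (x + y) ^ (1 + 2 ^ i) + c * (x + y) ^ (1 + 2 ^ j)) =
      psi (a * x + b * x ^ (1 + 2 ^ i) + c * x ^ (1 + 2 ^ j)) *
      psi (a * y + b * y ^ (1 + 2 ^ i) + c * y ^ (1 + 2 ^ j)) * psi (x * L m i j b c y) := by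
  unfold L
  rw [psi_add, psi_add, term m i hK hi, term m j hK hj, mul_add a, psi_add (a * x),
    psi_add (a * x + b * x ^ (1 + 2 ^ i)), psi_add (a * x) (b * x ^ (1 + 2 ^ i)),
    psi_add (a * y + b * y ^ (1 + 2 ^ i)), psi_add (a * y) (b * y ^ (1 + 2 ^ i)),
    mul_add x (b * y ^ 2 ^ i + (b * y) ^ 2 ^ (m - i)),
    psi_add (x * (b * y ^ 2 ^ i + (b * y) ^ 2 ^ (m - i)))]
  ring

/-- the radical -/
def W (m i j : ℕ) (b c : K) : AddSubgroup K where
  carrier := {y | L m i j b c y = 0}
  zero_mem' := by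
    have h : L m i j b c (0 : K) = 0 := by simp [L]
    exact h
  add_mem' := by
    intro x y hx hy
    have hx' : L m i j b c x = 0 := hx
    have hy' : L m i j b c y = 0 := hy
    show L m i j b c (x + y) = 0
    rw [L_add, hx', hy', add_zero]
  neg_mem' := by
    intro x hx
    haveI := charTwo K
    show L m i j b c (-x) = 0
    rw [CharTwo.neg_eq]
    exact hx

theorem mem_W (m i j : ℕ) (b c y : K) : y ∈ W m i j b c ↔ L m i j b c y = 0 := Iff.rfl

open Classical in
theorem sq_eq (m i j : ℕ) (hK : Fintype.card K = 2 ^ m) (hi : i ≤ m) (hj : j ≤ m) (a b c : K) :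
    S (1 + 2 ^ i) (1 + 2 ^ j) (a, b, c) ^ 2 = 0 ∨
    S (1 + 2 ^ i) (1 + 2 ^ j) (a, b, c) ^ 2 = 2 ^ m * (Nat.card (W m i j b c) : ℚ) := by
  set Q : K → ℚ := fun x => psi (a * x + b * x ^ (1 + 2 ^ i) + c * x ^ (1 + 2 ^ j)) with hQ
  have hS : S (1 + 2 ^ i) (1 + 2 ^ j) (a, b, c) = ∑ x : K, Q x := rfl
  have hq : ∀ x y : K, Q (x + y) = Q x * Q y * psi (x * L m i j b c y) :=
    fun x y => quad m i j hK hi hj a b c x y
  have hQQ : ∀ x : K, Q x * Q x = 1 := fun x => psi_mul_self _
  have h1 : S (1 + 2 ^ i) (1 + 2 ^ j) (a, b, c) ^ 2 =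
      ∑ y : K, Q y * ∑ x : K, psi (x * L m i j b c y) := by
    rw [hS, sq, Finset.sum_mul_sum]
    have h2 : ∀ x : K, ∑ y : K, Q x * Q y = ∑ y : K, Q y * psi (x * L m i j b c y) := by
      intro x
      rw [← Equiv.sum_comp (Equiv.addLeft x) (fun y : K => Q x * Q y)]
      refine Finset.sum_congr rfl fun y _ => ?_
      show Q x * Q (x + y) = _
      rw [hq, ← mul_assoc, ← mul_assoc, hQQ, one_mul]
    simp_rw [h2]
    rw [Finset.sum_comm]
    refine Finset.sum_congr rfl fun y _ => ?_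
    rw [Finset.mul_sum]
  have h3 : S (1 + 2 ^ i) (1 + 2 ^ j) (a, b, c) ^ 2 =
      2 ^ m * ∑ y ∈ Finset.univ.filter (fun y : K => L m i j b c y = 0), Q y := by
    rw [h1, Finset.mul_sum, Finset.sum_filter]
    refine Finset.sum_congr rfl fun y _ => ?_
    by_cases hy : L m i j b c y = 0
    · rw [if_pos hy, hy]
      simp only [mul_zero, psi_zero, Finset.sum_const, Finset.card_univ, hK, nsmul_eq_mul, mul_one]
      push_cast
      ring
    · rw [if_neg hy, sum_psi hy, mul_zero]
  by_cases hall : ∀ y : K, L m i j b c y = 0 → Q y = 1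
  · right
    rw [h3]
    congr 1
    rw [Finset.sum_congr rfl (g := fun _ => (1 : ℚ)) (fun y hy => hall y (Finset.mem_filter.1 hy).2),
      Finset.sum_const, nsmul_eq_mul, mul_one]
    congr 1
    rw [Nat.card_eq_fintype_card, Fintype.card_subtype]
    congr 1
  · left
    push Not at hall
    obtain ⟨w, hw, hw1⟩ := hall
    have hw2 : Q w = -1 := (psi_cases _).resolve_left hw1
    have h4 : ∑ y ∈ Finset.univ.filter (fun y : K => L m i j b c y = 0), Q y =
        ∑ y ∈ Finset.univ.filter (fun y : K => L m i j b c y = 0), Q (y + w) := by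
      refine (Finset.sum_bij (fun y _ => y + w) ?_ ?_ ?_ ?_).symm
      · intro y hy
        rw [Finset.mem_filter] at hy ⊢
        exact ⟨Finset.mem_univ _, by rw [L_add, hy.2, hw, add_zero]⟩
      · intro y _ z _ h
        exact add_right_cancel h
      · intro y hy
        rw [Finset.mem_filter] at hy
        haveI := charTwo K
        refine ⟨y + w, Finset.mem_filter.2 ⟨Finset.mem_univ _, by rw [L_add, hy.2, hw, add_zero]⟩, ?_⟩
        rw [add_assoc, CharTwo.add_self_eq_zero, add_zero]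
      · intro y _
        rfl
    have h5 : ∀ y : K, Q (y + w) = -Q y := by
      intro y
      rw [hq, hw, mul_zero, psi_zero, hw2]
      ring
    simp_rw [h5, Finset.sum_neg_distrib] at h4
    rw [h3]
    have h6 : ∑ y ∈ Finset.univ.filter (fun y : K => L m i j b c y = 0), Q y = 0 := by linarith
    rw [h6, mul_zero]

/-- the sums are integers -/
theorem S_int (e f : ℕ) (v : K × K × K) : ∃ n : ℤ, S e f v = n := by
  have h : ∀ x : K, ∃ n : ℤ, psi x = n := by
    intro x
    rcases psi_cases x with h | h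
    · exact ⟨1, by rw [h]; norm_num⟩
    · exact ⟨-1, by rw [h]; norm_num⟩
  choose g hg using h
  refine ⟨∑ x : K, g (v.1 * x + v.2.1 * x ^ e + v.2.2 * x ^ f), ?_⟩
  unfold S
  push_cast
  exact Finset.sum_congr rfl fun x _ => hg _

/-- the last step: parity -/
theorem parity (t r : ℕ) (hr : r ≤ 4) (s : ℚ) (n : ℤ) (hn : s = n)
    (hs : s ^ 2 = 2 ^ (2 * t + 1) * 2 ^ r) :
    s ∈ ({0, 2 ^ (t + 1), -2 ^ (t + 1), 2 ^ (t + 2), -2 ^ (t + 2)} : Finset ℚ) := by
  have h1 : n ^ 2 = 2 ^ (2 * t + 1 + r) := by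
    have : ((n ^ 2 : ℤ) : ℚ) = ((2 ^ (2 * t + 1 + r) : ℤ) : ℚ) := by
      push_cast
      rw [← hn, hs, ← pow_add]
    exact_mod_cast this
  have h2 : n.natAbs ^ 2 = 2 ^ (2 * t + 1 + r) := by
    have h := congrArg Int.natAbs h1
    rw [Int.natAbs_pow, Int.natAbs_pow] at h
    exact h
  obtain ⟨k, _, hk⟩ := (Nat.dvd_prime_pow Nat.prime_two).1 (Dvd.intro_left (n.natAbs)
    (show n.natAbs * n.natAbs = 2 ^ (2 * t + 1 + r) by rw [← h2, sq]))
  rw [hk, ← pow_mul] at h2
  have h3 : k * 2 = 2 * t + 1 + r := Nat.pow_right_injective le_rfl h2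
  have h4 : k = t + 1 ∨ k = t + 2 := by omega
  have h5 : s = 2 ^ k ∨ s = -2 ^ k := by
    rcases Int.natAbs_eq n with h | h
    · left
      rw [hn, h, hk]
      push_cast
      rfl
    · right
      rw [hn, h, hk]
      push_cast
      rfl
  simp only [Finset.mem_insert, Finset.mem_singleton]
  rcases h4 with h4 | h4 <;> rcases h5 with h5 | h5 <;> rw [h4] at h5 <;> simp [h5]

theorem fin (t i j : ℕ) (hK : Fintype.card K = 2 ^ (2 * t + 1)) (hi : i ≤ 2 * t + 1)
    (hj : j ≤ 2 * t + 1) (a b c : K) (hW : Nat.card (W (2 * t + 1) i j b c) ≤ 16) :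
    S (1 + 2 ^ i) (1 + 2 ^ j) (a, b, c) ∈
      ({0, 2 ^ (t + 1), -2 ^ (t + 1), 2 ^ (t + 2), -2 ^ (t + 2)} : Finset ℚ) := by
  rcases sq_eq (2 * t + 1) i j hK hi hj a b c with h | h
  · rw [pow_eq_zero_iff two_ne_zero] at h
    rw [h]
    simp
  · obtain ⟨n, hn⟩ := S_int (1 + 2 ^ i) (1 + 2 ^ j) (a, b, c)
    have h1 : Nat.card (W (2 * t + 1) i j b c) ∣ 2 ^ (2 * t + 1) := by
      rw [← hK, ← Nat.card_eq_fintype_card]
      exact AddSubgroup.card_addSubgroup_dvd_card _
    obtain ⟨r, _, hr⟩ := (Nat.dvd_prime_pow Nat.prime_two).1 h1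
    have hr4 : r ≤ 4 := by
      rw [hr] at hW
      exact (Nat.pow_le_pow_iff_right (by norm_num)).1 (hW.trans (by norm_num : 16 ≤ 2 ^ 4))
    refine parity t r hr4 _ n hn ?_
    rw [h, hr]
    push_cast
    rfl

theorem cf (k l : ℕ) (hk : 3 ≤ k) (hl : 3 ≤ l) (x y z w : K)
    (h : Polynomial.C x * Polynomial.X ^ k + Polynomial.C y * Polynomial.X ^ l
      + Polynomial.C z * Polynomial.X ^ 2 + Polynomial.C w * Polynomial.X = 0) : z = 0 ∧ w = 0 := by
  have hk2 : (2 : ℕ) ≠ k := by omega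
  have hk1 : (1 : ℕ) ≠ k := by omega
  have hl2 : (2 : ℕ) ≠ l := by omega
  have hl1 : (1 : ℕ) ≠ l := by omega
  constructor
  · have h1 := congrArg (fun p => Polynomial.coeff p 2) h
    simp only [Polynomial.coeff_add, Polynomial.coeff_C_mul, Polynomial.coeff_X_pow, Polynomial.coeff_X,
      if_neg hk2, if_neg hl2, Polynomial.coeff_zero, mul_zero, zero_add, if_true, mul_one] at h1
    simpa using h1
  · have h1 := congrArg (fun p => Polynomial.coeff p 1) h
    simp only [Polynomial.coeff_add, Polynomial.coeff_C_mul, Polynomial.coeff_X_pow, Polynomial.coeff_X,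
      if_neg hk1, if_neg hl1, Polynomial.coeff_zero, mul_zero, zero_add, if_true, mul_one] at h1
    simpa using h1

/-- a nonzero polynomial of degree at most `16` which vanishes on an injective image bounds the radical -/
theorem card_le (m i j : ℕ) (b c : K) (P : Polynomial K) (hP : P ≠ 0) (hd : P.natDegree ≤ 16)
    (k : ℕ) (h : ∀ y : K, L m i j b c y = 0 → P.IsRoot (y ^ 2 ^ k)) :
    Nat.card (W m i j b c) ≤ 16 := by
  classical
  haveI := charTwo K
  haveI : Fact (Nat.Prime 2) := ⟨Nat.prime_two⟩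
  have hinj : Function.Injective (fun y : K => y ^ 2 ^ k) := by
    intro x y hxy
    have h1 : (x - y) ^ 2 ^ k = 0 := by
      rw [sub_pow_char_pow]
      exact sub_eq_zero.2 hxy
    exact sub_eq_zero.1 (pow_eq_zero_iff (pow_ne_zero k two_ne_zero) |>.1 h1)
  have h2 : Nat.card (W m i j b c) ≤ P.roots.toFinset.card := by
    rw [Nat.card_eq_fintype_card, ← Finset.card_univ]
    refine Finset.card_le_card_of_injOn (fun y => (y : K) ^ 2 ^ k) ?_ ?_
    · intro y _
      rw [Finset.mem_coe, Multiset.mem_toFinset, Polynomial.mem_roots hP]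
      exact h y.1 y.2
    · intro x _ y _ hxy
      exact Subtype.ext (hinj hxy)
  exact h2.trans ((Multiset.toFinset_card_le _).trans ((Polynomial.card_roots' P).trans hd))

theorem t_VAL : S_VAL := by
  intro t ht K _ _ _ hK e f hef v hv
  obtain ⟨a, b, c⟩ := v
  haveI := charTwo K
  haveI : Fact (Nat.Prime 2) := ⟨Nat.prime_two⟩
  by_cases hbc : b = 0 ∧ c = 0
  · obtain ⟨hb, hc⟩ := hbc
    subst hb
    subst hc
    have ha : a ≠ 0 := by
      rintro rfl
      exact hv rfl
    have h0 : S e f (a, (0 : K), (0 : K)) = 0 := by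
      unfold S
      simp only [zero_mul, add_zero]
      simp_rw [mul_comm a]
      exact sum_psi ha
    rw [h0]
    simp
  · have hcard : ∀ x : K, x ^ 2 ^ (2 * t + 1) = x := by
      intro x
      rw [← hK]
      exact FiniteField.pow_card x
    rcases hef with ⟨he, hf⟩ | ⟨he, hf⟩
    · subst he
      subst hf
      refine fin t (t - 1) t hK (by omega) (by omega) a b c ?_
      refine card_le (2 * t + 1) (t - 1) t b c
        (Polynomial.C (b ^ 2 ^ (t + 2)) * Polynomial.X ^ 8 + Polynomial.C (c ^ 2 ^ (t + 1)) * Polynomial.X ^ 4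
          + Polynomial.C c * Polynomial.X ^ 2 + Polynomial.C b * Polynomial.X) ?_ ?_ (t - 1) ?_
      · intro h
        exact hbc (and_comm.1 (cf 8 4 (by norm_num) (by norm_num) _ _ _ _ h))
      · compute_degree
        norm_num
      · intro y hy
        have h2 : (b * y) ^ 2 ^ (2 * t + 1 - (t - 1)) = b ^ 2 ^ (t + 2) * (y ^ 2 ^ (t - 1)) ^ 8 := by
          rw [show 2 * t + 1 - (t - 1) = t + 2 by omega, mul_pow, ← pow_mul y]
          congr 2
          rw [show t + 2 = (t - 1) + 3 by omega, pow_add]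
          norm_num
        have h3 : (c * y) ^ 2 ^ (2 * t + 1 - t) = c ^ 2 ^ (t + 1) * (y ^ 2 ^ (t - 1)) ^ 4 := by
          rw [show 2 * t + 1 - t = t + 1 by omega, mul_pow, ← pow_mul y]
          congr 2
          rw [show t + 1 = (t - 1) + 2 by omega, pow_add]
          norm_num
        have h4 : y ^ 2 ^ t = (y ^ 2 ^ (t - 1)) ^ 2 := by
          rw [← pow_mul, ← pow_succ, show t - 1 + 1 = t by omega]
        unfold L at hy
        rw [h2, h3, h4] at hy
        simp only [Polynomial.IsRoot.def, Polynomial.eval_add, Polynomial.eval_mul, Polynomial.eval_C,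
          Polynomial.eval_pow, Polynomial.eval_X]
        rw [← hy]
        ring
    · subst he
      subst hf
      refine fin t 1 2 hK (by omega) (by omega) a b c ?_
      refine card_le (2 * t + 1) 1 2 b c
        (Polynomial.C (c ^ 4) * Polynomial.X ^ 16 + Polynomial.C (b ^ 4) * Polynomial.X ^ 8
          + Polynomial.C (b ^ 2) * Polynomial.X ^ 2 + Polynomial.C c * Polynomial.X) ?_ ?_ 0 ?_
      · intro h
        have h1 := cf 16 8 (by norm_num) (by norm_num) _ _ _ _ h
        exact hbc ⟨(pow_eq_zero_iff two_ne_zero).1 h1.1, h1.2⟩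
      · compute_degree
      · intro y hy
        have h5 : (L (2 * t + 1) 1 2 b c y) ^ 2 ^ 2 = 0 := by
          rw [hy]
          norm_num
        unfold L at h5
        rw [add_pow_char_pow, add_pow_char_pow, add_pow_char_pow] at h5
        have h6 : ((b * y) ^ 2 ^ (2 * t + 1 - 1)) ^ 2 ^ 2 = (b * y) ^ 2 := by
          rw [← pow_mul, ← pow_add, show 2 * t + 1 - 1 + 2 = (2 * t + 1) + 1 by omega, pow_succ 2 (2 * t + 1),
            pow_mul, hcard]
        have h7 : ((c * y) ^ 2 ^ (2 * t + 1 - 2)) ^ 2 ^ 2 = c * y := by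
          rw [← pow_mul, ← pow_add, show 2 * t + 1 - 2 + 2 = 2 * t + 1 by omega, hcard]
        rw [h6, h7] at h5
        simp only [Polynomial.IsRoot.def, Polynomial.eval_add, Polynomial.eval_mul, Polynomial.eval_C,
          Polynomial.eval_pow, Polynomial.eval_X]
        rw [← h5]
        ring

end main

end Pool.Agent.Run7.h105.WD
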